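import Mathlib
import Pool.Agent.K4H12.Perc

/-!
# MP_56182f_pr, Q1: three-terminal partition probabilities in bond percolation

Q1 is true, with an explicit inequality: for every finite simple graph, all edge probabilities and
all distinct vertices `a, b, c`,
`P(abc) * P(a|b|c)^2 ≤ 8 * (P(ab|c) + P(ac|b))`.
-/

namespace Pool.Agent.Results.MP_56182f_pr.ThreeTerminal

open Pool.Agent.K4H12.Perc

universe u

variable {V : Type u}

/-- `x` and `y` lie in the same open cluster, when `S` is the set of open edges. -/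
def Conn (S : Finset (Sym2 V)) (x y : V) : Prop :=
  (SimpleGraph.fromEdgeSet (S : Set (Sym2 V))).Reachable x y

open Classical in
/-- Bernoulli bond percolation on the finite simple graph `G` with edge probabilities `p`: the
probability that the random set `S` of open edges has the property `Q`.  Each set `S` of edges of
`G` has probability `∏_{e ∈ S} p e * ∏_{e ∈ E(G) \ S} (1 - p e)`. -/
noncomputable def prob [Fintype V] (G : SimpleGraph V) (p : Sym2 V → ℝ)
    (Q : Finset (Sym2 V) → Prop) : ℝ :=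
  ∑ S ∈ G.edgeFinset.powerset,
    if Q S then (∏ e ∈ S, p e) * ∏ e ∈ G.edgeFinset \ S, (1 - p e) else 0

/-- `P(abc)`: all three vertices lie in one cluster. -/
noncomputable def pAll [Fintype V] (G : SimpleGraph V) (p : Sym2 V → ℝ) (a b c : V) : ℝ :=
  prob G p (fun S => Conn S a b ∧ Conn S a c ∧ Conn S b c)

/-- `P(ab|c)`: `a` and `b` share a cluster and `c` lies in a different one. -/
noncomputable def pPair [Fintype V] (G : SimpleGraph V) (p : Sym2 V → ℝ) (a b c : V) : ℝ :=
  prob G p (fun S => Conn S a b ∧ ¬ Conn S a c ∧ ¬ Conn S b c)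

/-- `P(a|b|c)`: the three vertices lie in three different clusters. -/
noncomputable def pNone [Fintype V] (G : SimpleGraph V) (p : Sym2 V → ℝ) (a b c : V) : ℝ :=
  prob G p (fun S => ¬ Conn S a b ∧ ¬ Conn S a c ∧ ¬ Conn S b c)

theorem conn_iff (S : Finset (Sym2 V)) (x y : V) : Conn S x y ↔ PCon S x y := by
  unfold Conn PCon
  rw [SimpleGraph.reachable_iff_reflTransGen]
  constructor
  · intro h
    induction h with
    | refl => exact Relation.ReflTransGen.refl
    | tail _ h ih =>
      rw [SimpleGraph.fromEdgeSet_adj] at h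
      exact Relation.ReflTransGen.tail ih h.1
  · intro h
    induction h with
    | refl => exact Relation.ReflTransGen.refl
    | @tail y z _ h ih =>
      by_cases hyz : y = z
      · exact hyz ▸ ih
      · refine Relation.ReflTransGen.tail ih ?_
        rw [SimpleGraph.fromEdgeSet_adj]
        exact ⟨h, hyz⟩

theorem T_singleton (S : Finset (Sym2 V)) (a x : V) : T {a} S x ↔ PCon S a x := by
  constructor
  · rintro ⟨w, rfl, h⟩; exact h
  · intro h; exact ⟨a, rfl, h⟩

open Classical in
theorem prob_eq [Fintype V] (G : SimpleGraph V) (p : Sym2 V → ℝ)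
    (Q : Finset (Sym2 V) → Prop) : prob G p Q = Pr G.edgeFinset p Q := by
  unfold prob Pr wt
  refine Finset.sum_congr rfl fun S hS => ?_
  rw [Finset.mem_powerset] at hS
  by_cases h : Q S
  · rw [if_pos h, if_pos h, ← Finset.prod_sdiff hS, mul_comm]
    congr 1
    · exact Finset.prod_congr rfl fun e he => by rw [if_neg (Finset.mem_sdiff.1 he).2]
    · exact Finset.prod_congr rfl fun e he => by rw [if_pos he]
  · rw [if_neg h, if_neg h]

theorem explicit_bound [Fintype V] (G : SimpleGraph V) (p : Sym2 V → ℝ)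
    (hp : ∀ e ∈ G.edgeSet, 0 ≤ p e ∧ p e ≤ 1) (a b c : V) :
    pAll G p a b c * pNone G p a b c ^ 2 ≤ 8 * (pPair G p a b c + pPair G p a c b) := by
  classical
  have hp' : ∀ e ∈ G.edgeFinset, 0 ≤ p e ∧ p e ≤ 1 :=
    fun e he => hp e (SimpleGraph.mem_edgeFinset.1 he)
  have hAll : pAll G p a b c = Pr G.edgeFinset p (X {a} b c) := by
    unfold pAll
    rw [prob_eq]
    refine Pr_congr fun S _ => ?_
    unfold X
    rw [T_singleton, T_singleton, conn_iff, conn_iff, conn_iff]
    constructor
    · rintro ⟨h1, h2, _⟩; exact ⟨h1, h2⟩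
    · rintro ⟨h1, h2⟩; exact ⟨h1, h2, Relation.ReflTransGen.trans h1.symm h2⟩
  have hPair : ∀ b c : V, pPair G p a b c = Pr G.edgeFinset p (U {a} b c) := by
    intro b c
    unfold pPair
    rw [prob_eq]
    refine Pr_congr fun S _ => ?_
    unfold U
    rw [T_singleton, T_singleton, conn_iff, conn_iff, conn_iff]
    constructor
    · rintro ⟨h1, h2, _⟩; exact ⟨h1, h2⟩
    · rintro ⟨h1, h2⟩; exact ⟨h1, h2, fun h => h2 (Relation.ReflTransGen.trans h1 h)⟩
  have hNone : pNone G p a b c = Pr G.edgeFinset p (Y {a} b c) := by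
    unfold pNone
    rw [prob_eq]
    refine Pr_congr fun S _ => ?_
    unfold Y
    rw [T_singleton, T_singleton, conn_iff, conn_iff, conn_iff]
  rw [hAll, hPair, hPair, hNone]
  set y₀ := Pr G.edgeFinset p (Y {a} b c) with hy₀
  have hnn : 0 ≤ y₀ := Pr_nonneg hp' _
  rcases hnn.eq_or_lt with h0 | hpos
  · rw [← h0]
    have h1 := Pr_nonneg hp' (U {a} b c)
    have h2 := Pr_nonneg hp' (U {a} c b)
    nlinarith
  · have h := main_ind hpos (Pr_le_one hp' _) p b c _ G.edgeFinset rfl {a} hp'
      (Pr_mono hp' fun S _ h => h.2.2) (by rw [← hy₀]; linarith)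
    linarith

/-- **Q1 of MP_56182f_pr is true**, with the explicit inequality
`P(abc) * P(a|b|c)^2 ≤ 8 * (P(ab|c) + P(ac|b))` (so `δ = ε^3 / 16` works). -/
theorem result :
    (∀ ε : ℝ, 0 < ε → ∃ δ : ℝ, 0 < δ ∧
      ∀ (V : Type u) [Fintype V] (G : SimpleGraph V) (p : Sym2 V → ℝ),
        (∀ e ∈ G.edgeSet, 0 ≤ p e ∧ p e ≤ 1) →
        ∀ a b c : V, a ≠ b → a ≠ c → b ≠ c →
          pPair G p a b c < δ → pPair G p a c b < δ →
            pAll G p a b c < ε ∨ pNone G p a b c < ε) ∧
    (∀ (V : Type u) [Fintype V] (G : SimpleGraph V) (p : Sym2 V → ℝ),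
      (∀ e ∈ G.edgeSet, 0 ≤ p e ∧ p e ≤ 1) → ∀ a b c : V, a ≠ b → a ≠ c → b ≠ c →
        pAll G p a b c * pNone G p a b c ^ 2 ≤ 8 * (pPair G p a b c + pPair G p a c b)) := by
  refine ⟨fun ε hε => ⟨ε ^ 3 / 16, by positivity, ?_⟩, ?_⟩
  · intro V _ G p hp a b c _ _ _ h1 h2
    by_contra hcon
    push Not at hcon
    obtain ⟨h3, h4⟩ := hcon
    have h5 := explicit_bound G p hp a b c
    have h6 : ε * ε ^ 2 ≤ pAll G p a b c * pNone G p a b c ^ 2 :=
      mul_le_mul h3 (pow_le_pow_left₀ hε.le h4 2) (by positivity) (hε.le.trans h3)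
    nlinarith
  · intro V _ G p hp a b c _ _ _
    exact explicit_bound G p hp a b c

end Pool.Agent.Results.MP_56182f_pr.ThreeTerminal
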